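import Pool.Agent.Lib.C8da183.Final

/-!
# Regulating quotients of almost completely decomposable groups with a cyclic regulating quotient

Let `G` be an almost completely decomposable group and `C` a regulating subgroup of `G` such that
`G / C` is cyclic. We determine all regulating quotients of `G`. For a prime `p` let `S_p` be the
set of break values `breaks G C p`; it consists of `0`, of `v_p [G : C]` and of all `s` such that
`v_p [G : C + G(τ)] = v_p [G : C + G(≰τ)] = s` for some type `τ`. A finite abelian group `X`
of order `[G : C]` is a regulating quotient of `G` if and only if for every prime `p` it has a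
chain of subgroups `Z_s`, `s ∈ S_p`, of index `p ^ s`, with cyclic consecutive quotients, if and
only if `|X / p ^ k X| ≤ p ^ (∑ min (g, k))`, the sum running over the gaps `g` of `S_p`.
-/

namespace Pool.Agent.Results.MP_8da183_al.CyclicRegulatingQuotient

open Pool.Agent.Lib.C8da183

theorem result {V : Type*} [AddCommGroup V] [Module ℚ V] (G C : AddSubgroup V)
    (hG : IsACD G) (hC : IsRegulating G C) (hcyc : IsAddCyclic (G ⧸ C.addSubgroupOf G))
    (X : Type*) [AddCommGroup X] [Finite X] :
    List.TFAE [RegQuot G X,
      Nat.card X = C.relIndex G ∧ ∀ p, p.Prime → HasCyclicChain X p (breaks G C p),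
      Nat.card X = C.relIndex G ∧ ∀ p, p.Prime → ∀ k,
        Nat.card (X ⧸ (nsmulAddMonoidHom (α := X) (p ^ k)).range) ≤
          p ^ gapSum (breaks G C p) ((C.relIndex G).factorization p) k] :=
  regQuot_tfae hG hC hcyc X

end Pool.Agent.Results.MP_8da183_al.CyclicRegulatingQuotient
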