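import Pool.Agent.Lib.C8da183.MaxFull
import Pool.Agent.Lib.C8da183.Exist

/-!
# Regulating quotients of arbitrary almost completely decomposable groups

Let `G` be an almost completely decomposable group. Call a finite group `X` together with an
epimorphism `π : G → X` full if `π (G(τ)) = π (G^#(τ))` for all types `τ`. We show that the
regulating quotients of `G` are exactly the full finite images of `G` of the largest order.
-/

namespace Pool.Agent.Results.MP_8da183_al.ImageCriterion

open Pool.Agent.Lib.C8da183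

theorem result {V : Type*} [AddCommGroup V] [Module ℚ V] (G : AddSubgroup V) (hG : IsACD G)
    (X : Type*) [AddCommGroup X] [Finite X] :
    RegQuot G X ↔ ∃ π : G →+ X, Function.Surjective π ∧
      (∀ x ∈ G, x ≠ 0 →
        ((up G x).addSubgroupOf G).map π = ((sharp G x).addSubgroupOf G).map π) ∧
      ∀ K, IsFull G K → K.relIndex G ≤ Nat.card X := by
  obtain ⟨C, hC⟩ := exists_regulating hG
  have hC0 := (hC.relIndex_eq hG hC).2
  have hle : ∀ x, (sharp G x).addSubgroupOf G ≤ (up G x).addSubgroupOf G := fun x y hy =>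
    AddSubgroup.mem_addSubgroupOf.mpr (sharp_le_up (AddSubgroup.mem_addSubgroupOf.mp hy))
  rw [regQuot_iff hG hC]
  constructor
  · rintro ⟨hcard, π, hsurj, hup⟩
    refine ⟨π, hsurj, fun x hx hx0 => le_antisymm (hup x hx hx0)
      (AddSubgroup.map_mono (hle x)), fun K hK => ?_⟩
    rw [hcard]
    exact Nat.le_of_dvd (Nat.pos_of_ne_zero hC0) (hK.relIndex_dvd hG hC)
  · rintro ⟨π, hsurj, hup, hmax⟩
    refine ⟨le_antisymm ?_ (hmax C (hC.isFull hG)), π, hsurj, fun x hx hx0 =>
      (hup x hx hx0).le⟩
    set K : AddSubgroup V := π.ker.map G.subtype with hKdef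
    have hKG : K ≤ G := by
      rintro _ ⟨y, _, rfl⟩
      exact y.2
    have hKof : K.addSubgroupOf G = π.ker := by
      ext y
      rw [AddSubgroup.mem_addSubgroupOf, hKdef, AddSubgroup.mem_map]
      constructor
      · rintro ⟨z, hz, e⟩
        rwa [← Subtype.ext e]
      · intro h; exact ⟨y, h, rfl⟩
    have equiv : (G ⧸ K.addSubgroupOf G) ≃+ X := by
      rw [hKof]
      exact QuotientAddGroup.quotientKerEquivOfSurjective π hsurj
    have hcard : K.relIndex G = Nat.card X := by
      rw [← Nat.card_congr equiv.toEquiv]; rfl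
    have hfull : IsFull G K := by
      rw [isFull_iff]
      refine ⟨hKG, ?_, fun x hx hx0 => ?_⟩
      · rw [hcard]; exact Nat.card_pos.ne'
      · intro y hy
        have hyG : y ∈ G := up_le hy
        have h2 : π ⟨y, hyG⟩ ∈ ((up G x).addSubgroupOf G).map π :=
          ⟨⟨y, hyG⟩, AddSubgroup.mem_addSubgroupOf.mpr hy, rfl⟩
        rw [hup x hx hx0] at h2
        obtain ⟨z, hz, e⟩ := h2
        have hz' : (z : V) ∈ sharp G x := AddSubgroup.mem_addSubgroupOf.mp hz
        rw [AddSubgroup.mem_sup]
        refine ⟨y - z, ⟨⟨y, hyG⟩ - z, ?_, rfl⟩, z, hz', by abel⟩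
        change π (⟨y, hyG⟩ - z) = 0
        rw [map_sub, e, sub_self]
    rw [← hcard]
    exact Nat.le_of_dvd (Nat.pos_of_ne_zero hC0) (hfull.relIndex_dvd hG hC)

end Pool.Agent.Results.MP_8da183_al.ImageCriterion
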